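import Mathlib

set_option autoImplicit false

open Matrix NormedSpace

namespace Pool.Agent.Results.MP_513688_co.ExpCounterexample

/-- `A` is diagonalizable over the complex numbers: `A P = P D` with `P` invertible and `D`
diagonal. -/
def Diagonalizable {n : ℕ} (A : Matrix (Fin n) (Fin n) ℝ) : Prop :=
  ∃ (P : Matrix (Fin n) (Fin n) ℂ) (d : Fin n → ℂ), IsUnit P ∧
    (A.map (algebraMap ℝ ℂ)) * P = P * Matrix.diagonal d

/-- `i` and `j` are `β`-subgraph equivalent: the diagonal entries of `exp (β A)` at `i` and `j`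
coincide. -/
def SubgraphEquivalent {n : ℕ} (A : Matrix (Fin n) (Fin n) ℝ) (β : ℂ) (i j : Fin n) : Prop :=
  (exp (β • A.map (algebraMap ℝ ℂ)) : Matrix (Fin n) (Fin n) ℂ) i i =
    (exp (β • A.map (algebraMap ℝ ℂ)) : Matrix (Fin n) (Fin n) ℂ) j j

/-- `i` and `j` are cospectral: all powers of `A` have equal diagonal entries at `i` and `j`. -/
def Cospectral {n : ℕ} (A : Matrix (Fin n) (Fin n) ℝ) (i j : Fin n) : Prop :=
  ∀ r : ℕ, (A ^ r) i i = (A ^ r) j j

/-- The integer form of the example. -/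
def MZ : Matrix (Fin 5) (Fin 5) ℤ :=
  !![1, 0, 1, 1, 0;
     1, 0, 1, 1, 0;
     0, 1, 1, 0, 1;
     0, 1, 1, 1, 1;
     1, 0, 1, 0, 0]

/-- The example: the adjacency matrix of an unweighted directed graph on five vertices. -/
def M : Matrix (Fin 5) (Fin 5) ℝ := (Int.castRingHom ℝ).mapMatrix MZ

lemma MZ_sq : MZ * MZ =
    !![1, 2, 3, 2, 2;
       1, 2, 3, 2, 2;
       2, 1, 3, 1, 1;
       2, 2, 4, 2, 2;
       1, 1, 2, 1, 1] := by decide

lemma MZ_cube : MZ ^ 3 =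
    !![5, 5, 10, 5, 5;
       5, 5, 10, 5, 5;
       4, 4, 8, 4, 4;
       6, 6, 12, 6, 6;
       3, 3, 6, 3, 3] := by
  rw [pow_succ, pow_two, MZ_sq]; decide

lemma MZ_four : MZ ^ 4 = 3 • MZ ^ 3 := by
  rw [pow_succ, MZ_cube]; decide

lemma MZ_pow (s : ℕ) : MZ ^ (3 + s) = 3 ^ s • MZ ^ 3 := by
  induction s with
  | zero => simp
  | succ s ih =>
    calc MZ ^ (3 + (s + 1)) = MZ ^ (3 + s) * MZ := by rw [← add_assoc, pow_succ]
      _ = 3 ^ s • (MZ ^ 3 * MZ) := by rw [ih, smul_mul_assoc]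
      _ = 3 ^ s • (3 • MZ ^ 3) := by rw [← MZ_four]; rfl
      _ = 3 ^ (s + 1) • MZ ^ 3 := by rw [smul_smul, pow_succ 3 s]

lemma MZ_diag (r : ℕ) : (MZ ^ r) 0 0 - (MZ ^ r) 1 1 = if r = 1 then 1 else if r = 2 then -1 else 0 := by
  rcases r with _ | _ | _ | s
  · simp
  · decide
  · rw [pow_two, MZ_sq]; decide
  · have h : s + 1 + 1 + 1 = 3 + s := by ring
    rw [h, MZ_pow, MZ_cube]
    have h1 : ¬ (3 + s = 1) := by omega
    have h2 : ¬ (3 + s = 2) := by omega
    rw [if_neg h1, if_neg h2]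
    simp

lemma M_pow (r : ℕ) : M ^ r = (Int.castRingHom ℝ).mapMatrix (MZ ^ r) := by
  unfold M; rw [map_pow]

lemma M_pow_apply (r : ℕ) (i j : Fin 5) : (M ^ r) i j = (((MZ ^ r) i j : ℤ) : ℝ) := by
  rw [M_pow]; rfl

/-- the complexification -/
noncomputable def MC : Matrix (Fin 5) (Fin 5) ℂ := M.map (algebraMap ℝ ℂ)

lemma MC_eq : MC = (Int.castRingHom ℂ).mapMatrix MZ := by
  ext i j
  simp [MC, M]

lemma MC_pow_apply (r : ℕ) (i j : Fin 5) : (MC ^ r) i j = (((MZ ^ r) i j : ℤ) : ℂ) := by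
  rw [MC_eq, ← map_pow]; rfl

lemma not_diag : ¬ Diagonalizable M := by
  rintro ⟨P, d, hP, hPd⟩
  change MC * P = P * Matrix.diagonal d at hPd
  have hpow : ∀ r : ℕ, MC ^ r * P = P * Matrix.diagonal (d ^ r) := by
    intro r
    induction r with
    | zero => simp
    | succ r ih =>
      rw [pow_succ, mul_assoc, hPd, ← mul_assoc, ih, mul_assoc, Matrix.diagonal_mul_diagonal,
        pow_succ]
      rfl
  have h4 : MC ^ 4 = (3:ℂ) • MC ^ 3 := by
    ext i j
    have e1 := MC_pow_apply 3 i j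
    have e2 : (MZ ^ 4) i j = 3 * (MZ ^ 3) i j := by rw [MZ_four]; simp
    rw [MC_pow_apply, e2]
    change _ = (3:ℂ) * (MC ^ 3) i j
    rw [e1]; push_cast; ring
  have hcancel : ∀ X Y : Matrix (Fin 5) (Fin 5) ℂ, P * X = P * Y → X = Y := by
    intro X Y h
    exact hP.mul_left_cancel h
  have h5 : Matrix.diagonal (d ^ 4) = (3:ℂ) • Matrix.diagonal (d ^ 3) := by
    apply hcancel
    rw [← hpow, h4, smul_mul_assoc, hpow, mul_smul_comm]
  have hd : ∀ i, d i ^ 2 = 3 * d i := by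
    intro i
    have h6 := congrFun (congrFun h5 i) i
    simp only [Matrix.diagonal_apply_eq, Matrix.smul_apply, Pi.pow_apply, smul_eq_mul] at h6
    have h7 : d i ^ 3 * (d i - 3) = 0 := by linear_combination h6
    rcases mul_eq_zero.mp h7 with h | h
    · have : d i = 0 := by simpa using h
      rw [this]; simp
    · have : d i = 3 := by linear_combination h
      rw [this]; norm_num
  have h8 : MC ^ 2 = (3:ℂ) • MC := by
    have h9 : MC ^ 2 * P = ((3:ℂ) • MC) * P := by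
      rw [hpow, smul_mul_assoc, hPd]
      have : (d ^ 2 : Fin 5 → ℂ) = (3:ℂ) • d := by
        ext i; simp [hd i]
      rw [this, Matrix.diagonal_smul, mul_smul_comm]
    exact hP.mul_right_cancel h9
  have h10 := congrFun (congrFun h8 0) 1
  rw [MC_pow_apply, Matrix.smul_apply] at h10
  have h11 := MC_pow_apply 1 0 1
  rw [pow_one] at h11
  rw [h11, pow_two, MZ_sq] at h10
  simp [MZ] at h10

open scoped Norms.Operator in
lemma exp_entry (β : ℂ) (i : Fin 5) :
    HasSum (fun r : ℕ => ((r.factorial : ℂ)⁻¹) * (β ^ r * (((MZ ^ r) i i : ℤ) : ℂ)))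
      ((exp (β • MC) : Matrix (Fin 5) (Fin 5) ℂ) i i) := by
  have h := NormedSpace.exp_series_hasSum_exp' (𝕂 := ℂ) (β • MC)
  have h2 := (Pi.hasSum.mp (Pi.hasSum.mp h i)) i
  have h3 : ∀ r : ℕ, ((r.factorial : ℂ)⁻¹) * (β ^ r * (((MZ ^ r) i i : ℤ) : ℂ)) =
      (((r.factorial : ℂ)⁻¹) • (β • MC) ^ r : Matrix (Fin 5) (Fin 5) ℂ) i i := by
    intro r
    rw [smul_pow]
    change _ = ((r.factorial : ℂ)⁻¹) * (β ^ r * (MC ^ r) i i)
    rw [MC_pow_apply]
  simp_rw [h3]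
  exact h2

lemma exp_diff : (exp ((2:ℂ) • MC) : Matrix (Fin 5) (Fin 5) ℂ) 0 0 =
    (exp ((2:ℂ) • MC) : Matrix (Fin 5) (Fin 5) ℂ) 1 1 := by
  have h := (exp_entry 2 0).sub (exp_entry 2 1)
  have h2 : HasSum (fun r : ℕ => ((r.factorial : ℂ)⁻¹) * ((2:ℂ) ^ r * (((MZ ^ r) 0 0 : ℤ) : ℂ)) -
      ((r.factorial : ℂ)⁻¹) * ((2:ℂ) ^ r * (((MZ ^ r) 1 1 : ℤ) : ℂ))) 0 := by
    have h3 : (fun r : ℕ => ((r.factorial : ℂ)⁻¹) * ((2:ℂ) ^ r * (((MZ ^ r) 0 0 : ℤ) : ℂ)) -
      ((r.factorial : ℂ)⁻¹) * ((2:ℂ) ^ r * (((MZ ^ r) 1 1 : ℤ) : ℂ))) =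
        fun r : ℕ => if r = 1 then (2:ℂ) else if r = 2 then -2 else 0 := by
      ext r
      have e := MZ_diag r
      have e' : (((MZ ^ r) 0 0 : ℤ) : ℂ) - (((MZ ^ r) 1 1 : ℤ) : ℂ) =
          if r = 1 then 1 else if r = 2 then -1 else 0 := by
        rw [← Int.cast_sub, e]; split_ifs <;> simp
      rw [← mul_sub, ← mul_sub, e']
      split_ifs with h1 h2
      · subst h1; simp
      · subst h2; norm_num [Nat.factorial]
      · simp
    rw [h3]
    have h4 : ∑ r ∈ Finset.range 3, (if r = 1 then (2:ℂ) else if r = 2 then -2 else 0) = 0 := by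
      simp [Finset.sum_range_succ]
    have h5 : HasSum (fun r : ℕ => if r = 1 then (2:ℂ) else if r = 2 then -2 else 0)
        (∑ r ∈ Finset.range 3, (if r = 1 then (2:ℂ) else if r = 2 then -2 else 0)) := by
      apply hasSum_sum_of_ne_finset_zero
      intro r hr
      rw [Finset.mem_range] at hr
      rw [if_neg (by omega), if_neg (by omega)]
    rw [h4] at h5
    exact h5
  exact sub_eq_zero.mp (h.unique h2)

/-- The conclusion: the statement of the problem fails, and it fails for an unweighted directed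
graph (loops allowed) with a primitive adjacency matrix, at `β = 2`. -/
theorem result :
    (∃ A : Matrix (Fin 5) (Fin 5) ℝ, (∀ u v, A u v = 0 ∨ A u v = 1) ∧ (∀ u v, 0 < (A ^ 3) u v) ∧
      ¬ Diagonalizable A ∧ SubgraphEquivalent A 2 0 1 ∧ A 0 0 ≠ A 1 1) ∧
    ¬ ∀ (n : ℕ) (A : Matrix (Fin n) (Fin n) ℝ), (∀ u v, 0 ≤ A u v ∧ IsAlgebraic ℚ (A u v)) →
      ¬ Diagonalizable A → ∀ β : ℂ, β ≠ 0 → IsAlgebraic ℚ β →
        ∀ i j : Fin n, SubgraphEquivalent A β i j → Cospectral A i j := by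
  have h01 : ∀ u v, M u v = 0 ∨ M u v = 1 := by
    have hz : ∀ u v, MZ u v = 0 ∨ MZ u v = 1 := by decide
    intro u v
    have e := M_pow_apply 1 u v
    rw [pow_one, pow_one] at e
    rw [e]
    rcases hz u v with h | h <;> rw [h] <;> simp
  have hpos : ∀ u v, 0 < (M ^ 3) u v := by
    have hz : ∀ u v, 0 < (MZ ^ 3) u v := by rw [MZ_cube]; decide
    intro u v
    rw [M_pow_apply]
    exact_mod_cast hz u v
  have hse : SubgraphEquivalent M 2 0 1 := exp_diff
  have hne : M 0 0 ≠ M 1 1 := by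
    have e0 := M_pow_apply 1 0 0
    have e1 := M_pow_apply 1 1 1
    rw [pow_one, pow_one] at e0 e1
    rw [e0, e1]
    simp [MZ]
  refine ⟨⟨M, h01, hpos, not_diag, hse, hne⟩, ?_⟩
  intro hall
  have hc := hall 5 M (fun u v => ?_) not_diag 2 (by norm_num) ?_ 0 1 hse 1
  · rw [pow_one] at hc; exact hne hc
  · rcases h01 u v with h | h <;> rw [h]
    · exact ⟨le_refl _, isAlgebraic_zero⟩
    · exact ⟨zero_le_one, isAlgebraic_one⟩
  · have := isAlgebraic_natCast (R := ℚ) (A := ℂ) 2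
    simpa using this

end Pool.Agent.Results.MP_513688_co.ExpCounterexample
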